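import Pool.Agent.MP_a09f05_co.Mg.Main

set_option autoImplicit false

namespace Pool.Agent.Results.MP_a09f05_co.UniquePair

/-- For all `k ≥ 2`, `p` and `ε > 0` and all large `n` there is a colouring of the `k`-subsets of
an `n`-set with at most `n ^ ε` colours such that every set `V` with `2 ≤ |V| ≤ p` contains a pair
all of whose `k`-supersets inside `V` have a colour occurring exactly once inside `V`, and sees at
least `C(|V| - 1, k - 1)` colours. -/
theorem result :
    ∀ k : ℕ, 2 ≤ k → ∀ p : ℕ, ∀ ε : ℝ, 0 < ε →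
      ∃ N : ℕ, ∀ n : ℕ, N ≤ n →
        ∃ c : Finset (Fin n) → ℕ,
          ((((Finset.univ : Finset (Fin n)).powersetCard k).image c).card : ℝ) ≤ (n : ℝ) ^ ε ∧
          ∀ V : Finset (Fin n), 2 ≤ V.card → V.card ≤ p →
            (∃ a ∈ V, ∃ b ∈ V, a ≠ b ∧
              ∀ e ∈ V.powersetCard k, a ∈ e → b ∈ e →
                ∀ e' ∈ V.powersetCard k, c e' = c e → e' = e) ∧
            (V.card - 1).choose (k - 1) ≤ ((V.powersetCard k).image c).card := by
  intro k hk p ε hε
  obtain ⟨N, hN⟩ := Pool.Agent.MP_a09f05_co.unique_pair_colouring k p ε hε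
  refine ⟨N, fun n hn => ?_⟩
  obtain ⟨c, hc, huniq⟩ := hN n hn
  refine ⟨c, hc, fun V h2 hp => ⟨?_, ?_⟩⟩
  · obtain ⟨a, ha, b, hb, hab, h⟩ := huniq V h2 hp
    refine ⟨a, ha, b, hb, hab, fun e he hae hbe e' he' hcc => ?_⟩
    obtain ⟨heV, hek⟩ := Finset.mem_powersetCard.mp he
    obtain ⟨heV', hek'⟩ := Finset.mem_powersetCard.mp he'
    exact (h e heV e' heV' hek hek' hae hbe hcc.symm).symm
  · exact Pool.Agent.MP_a09f05_co.count_colours hk c huniq (V.card - 1) V (by omega) hp

end Pool.Agent.Results.MP_a09f05_co.UniquePair
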